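import Pool.Agent.V11178.Net.Data
import Pool.Agent.V11178.Net.Path

/-!
# MP_6fbbc1_co: the 24-cell, the 120-cell and the 600-cell are not all-net

Each of the three regular polytopes has a ridge unfolding in which two facet images overlap.  The
definitions (`Facet`, `dualGraph`, `IsRidgeUnfolding`, `AllNet`, `circum`, `signedPerms`,
`evenSignedPerms`) are in `Pool/Agent/V11178/Net/Basic.lean`.
-/

namespace Pool.Agent.Results.MP_6fbbc1_co.NotAllNet

open Pool.Agent.V11178.Net

/-- The golden ratio. -/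
noncomputable def phi : ℝ := (1 + √5) / 2

/-- The 24 centres of the facets of a regular 24-cell: all permutations of `(±1, ±1, 0, 0)`. -/
def N24 : Set (E 4) := signedPerms ![1, 1, 0, 0]

/-- The 120 centres of the facets of a regular 120-cell (the vertices of the dual 600-cell): all
permutations of `(±2, 0, 0, 0)`, all `(±1, ±1, ±1, ±1)` and all even permutations of
`(±φ, ±1, ±φ⁻¹, 0)`. -/
def N120 : Set (E 4) :=
  signedPerms ![2, 0, 0, 0] ∪ signedPerms ![1, 1, 1, 1] ∪ evenSignedPerms ![phi, 1, phi⁻¹, 0]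

/-- The 600 centres of the facets of a regular 600-cell (the vertices of the dual 120-cell): all
permutations of `(0, 0, ±2, ±2)`, `(±1, ±1, ±1, ±√5)`, `(±φ⁻², ±φ, ±φ, ±φ)`,
`(±φ⁻¹, ±φ⁻¹, ±φ⁻¹, ±φ²)` and all even permutations of `(0, ±φ⁻², ±1, ±φ²)`,
`(0, ±φ⁻¹, ±φ, ±√5)`, `(±φ⁻¹, ±1, ±φ, ±2)`. -/
def N600 : Set (E 4) :=
  signedPerms ![0, 0, 2, 2] ∪ signedPerms ![1, 1, 1, √5] ∪
    signedPerms ![phi⁻¹ ^ 2, phi, phi, phi] ∪ signedPerms ![phi⁻¹, phi⁻¹, phi⁻¹, phi ^ 2] ∪
    evenSignedPerms ![0, phi⁻¹ ^ 2, 1, phi ^ 2] ∪ evenSignedPerms ![0, phi⁻¹, phi, √5] ∪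
    evenSignedPerms ![phi⁻¹, 1, phi, 2]

/-- The regular 24-cell with 24 octahedral facets, with inradius `√2`. -/
def cell24 : Set (E 4) := circum N24

/-- The regular 120-cell with 120 dodecahedral facets, with inradius `2`. -/
def cell120 : Set (E 4) := circum N120

/-- The regular 600-cell with 600 tetrahedral facets, with inradius `2 √2`. -/
def cell600 : Set (E 4) := circum N600

lemma signedPerms_eq {a : Fin 4 → ℝ} (i j : Fin 4) (hij : i ≠ j) (h : a i = a j) :
    signedPerms a = evenSignedPerms a := by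
  ext x
  constructor
  · rintro ⟨σ, hσ⟩
    rcases Int.units_eq_one_or (Equiv.Perm.sign σ) with hs | hs
    · exact ⟨σ, hs, hσ⟩
    · refine ⟨Equiv.swap i j * σ, ?_, ?_⟩
      · rw [map_mul, hs, Equiv.Perm.sign_swap hij]
        rfl
      · intro c
        rw [hσ c, Equiv.Perm.mul_apply]
        by_cases h1 : σ c = i
        · rw [h1, Equiv.swap_apply_left, h]
        · by_cases h2 : σ c = j
          · rw [h2, Equiv.swap_apply_right, h]
          · rw [Equiv.swap_apply_of_ne_of_ne h1 h2]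
  · rintro ⟨σ, _, hσ⟩
    exact ⟨σ, hσ⟩

lemma val_vec (a b c d : Q5) :
    (fun i => (![a, b, c, d] i).val) = ![a.val, b.val, c.val, d.val] := by
  funext i
  fin_cases i <;> rfl

lemma v_phi : (⟨1 / 2, 1 / 2⟩ : Q5).val = phi := by
  simp only [Q5.val, phi]; push_cast; ring

lemma five : √5 * √5 = (5 : ℝ) := Real.mul_self_sqrt (by norm_num)

lemma phi_ne : phi ≠ 0 := by
  have : (0 : ℝ) ≤ √5 := Real.sqrt_nonneg _
  unfold phi
  positivity

lemma v_phi1 : (⟨-1 / 2, 1 / 2⟩ : Q5).val = phi⁻¹ := by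
  refine eq_inv_of_mul_eq_one_left ?_
  simp only [Q5.val, phi]; push_cast
  linear_combination (1 / 4 : ℝ) * five

lemma v_phi1sq : (⟨3 / 2, -1 / 2⟩ : Q5).val = phi⁻¹ ^ 2 := by
  rw [← v_phi1]
  simp only [Q5.val]; push_cast
  linear_combination (-1 / 4 : ℝ) * five

lemma v_phisq : (⟨3 / 2, 1 / 2⟩ : Q5).val = phi ^ 2 := by
  rw [← v_phi]
  simp only [Q5.val]; push_cast
  linear_combination (-1 / 4 : ℝ) * five

lemma v_sqrt : (⟨0, 1⟩ : Q5).val = √5 := by simp [Q5.val]

lemma N24_eq : N24 = codeSet C24 := by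
  unfold N24
  rw [signedPerms_eq 0 1 (by decide) rfl]
  ext x
  simp only [codeSet, C24, List.mem_singleton, Set.mem_ofPred_eq, exists_eq_left, val_vec,
    val_zero, val_one]

lemma N120_eq : N120 = codeSet C120 := by
  unfold N120
  rw [signedPerms_eq (a := ![2, 0, 0, 0]) 1 2 (by decide) rfl,
    signedPerms_eq (a := ![1, 1, 1, 1]) 0 1 (by decide) rfl]
  ext x
  simp only [codeSet, C120, List.mem_cons, List.not_mem_nil, or_false, Set.mem_ofPred_eq,
    Set.mem_union, or_and_right, exists_or, exists_eq_left, val_vec, val_zero, val_one, val_two,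
    v_phi, v_phi1, or_assoc]

lemma N600_eq : N600 = codeSet C600 := by
  unfold N600
  rw [signedPerms_eq (a := ![0, 0, 2, 2]) 0 1 (by decide) rfl,
    signedPerms_eq (a := ![1, 1, 1, √5]) 0 1 (by decide) rfl,
    signedPerms_eq (a := ![phi⁻¹ ^ 2, phi, phi, phi]) 1 2 (by decide) rfl,
    signedPerms_eq (a := ![phi⁻¹, phi⁻¹, phi⁻¹, phi ^ 2]) 0 1 (by decide) rfl]
  ext x
  simp only [codeSet, C600, List.mem_cons, List.not_mem_nil, or_false, Set.mem_ofPred_eq,
    Set.mem_union, or_and_right, exists_or, exists_eq_left, val_vec, val_zero, val_one, val_two,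
    v_phi, v_phi1, v_phisq, v_phi1sq, v_sqrt, or_assoc]

/-- **MP_6fbbc1_co, Q1.**  Each of the 24-cell, the 120-cell and the 600-cell fails to be all-net:
it has a ridge unfolding in which the images of two distinct facets overlap. -/
theorem result : ¬ AllNet cell24 ∧ ¬ AllNet cell120 ∧ ¬ AllNet cell600 := by
  refine ⟨?_, ?_, ?_⟩
  · rw [cell24, N24_eq]
    exact not_allNet_of_check check24 pathCheck24
  · rw [cell120, N120_eq]
    exact not_allNet_of_check check120 pathCheck120
  · rw [cell600, N600_eq]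
    exact not_allNet_of_check check600 pathCheck600

end Pool.Agent.Results.MP_6fbbc1_co.NotAllNet
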